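import Pool.Agent.Helper30.DL.GoalsC

/-!
MP_b4564f_an, packet TREE: soundness of `Tr.run`.
-/

set_option autoImplicit false

namespace Pool.Agent.Helper49.DL

open Pool.Agent.Helper30.DL

theorem abs_ge_max (A0 A1 : ℤ) (A : ℝ) (h0 : (A0 : ℝ) ≤ 10000000000 * A)
    (h1 : 10000000000 * A ≤ A1) : ((max A0 (-A1) : ℤ) : ℝ) ≤ 10000000000 * |A| := by
  rw [Int.cast_max, max_le_iff]
  constructor
  · have := le_abs_self A
    linarith
  · have := neg_le_abs A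
    push_cast
    linarith

theorem ou1 (x0 X0 X1 Y0 Y1 : ℤ) (h : (decide (0 < max Y0 (-Y1)) && decide (0 < max X0 (-X1))
      && decide (x0 * 10000000000 < max Y0 (-Y1) * max X0 (-X1))) = true)
    (X Y : ℝ) (hX0 : (X0 : ℝ) ≤ 10000000000 * X) (hX1 : 10000000000 * X ≤ X1)
    (hY0 : (Y0 : ℝ) ≤ 10000000000 * Y) (hY1 : 10000000000 * Y ≤ Y1)
    (hx : 10000000000 * |X * Y| ≤ x0) : False := by
  rw [Bool.and_eq_true, Bool.and_eq_true, decide_eq_true_eq, decide_eq_true_eq,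
    decide_eq_true_eq] at h
  obtain ⟨⟨h1, h2⟩, h3⟩ := h
  have a1 := abs_ge_max X0 X1 X hX0 hX1
  have a2 := abs_ge_max Y0 Y1 Y hY0 hY1
  have h3' : ((x0 : ℤ) : ℝ) * 10000000000
      < ((max Y0 (-Y1) : ℤ) : ℝ) * ((max X0 (-X1) : ℤ) : ℝ) := by exact_mod_cast h3
  have h1' : (0 : ℝ) < ((max Y0 (-Y1) : ℤ) : ℝ) := by exact_mod_cast h1
  have h2' : (0 : ℝ) < ((max X0 (-X1) : ℤ) : ℝ) := by exact_mod_cast h2
  have h4 : ((max Y0 (-Y1) : ℤ) : ℝ) * ((max X0 (-X1) : ℤ) : ℝ)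
      ≤ (10000000000 * |Y|) * (10000000000 * |X|) :=
    mul_le_mul a2 a1 h2'.le (by positivity)
  rw [abs_mul] at hx
  nlinarith

theorem ou2 (R : Rg) (hom : 0 ≤ R.om) (X0 X1 z0 z1 : ℤ)
    (h : decide (min z1 (R.om * X1 / 10000000000 + 1 + R.bh)
      < max z0 (R.om * X0 / 10000000000 - R.bl)) = true)
    (X ζ : ℝ) (hX0 : (X0 : ℝ) ≤ 10000000000 * X) (hX1 : 10000000000 * X ≤ X1)
    (hz0 : (z0 : ℝ) ≤ 10000000000 * ζ) (hz1 : 10000000000 * ζ ≤ z1)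
    (hl : (R.om : ℝ) * X - R.bl ≤ 10000000000 * ζ)
    (hh : 10000000000 * ζ ≤ (R.om : ℝ) * X + R.bh) : False := by
  rw [decide_eq_true_eq] at h
  have ho : (0 : ℝ) ≤ (R.om : ℝ) := by exact_mod_cast hom
  have e1 : ((R.om * X1 / 10000000000 : ℤ) : ℝ) + 1 ≥ (R.om : ℝ) * X1 / 10000000000 := by
    have : R.om * X1 < (R.om * X1 / 10000000000 + 1) * 10000000000 :=
      Int.lt_mul_of_ediv_lt (by norm_num) (Int.lt_succ _)
    have h' : ((R.om : ℝ) * X1) < (((R.om * X1 / 10000000000 : ℤ) : ℝ) + 1) * 10000000000 := by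
      exact_mod_cast this
    rw [ge_iff_le, div_le_iff₀ (by norm_num)]
    exact h'.le
  have e0 : ((R.om * X0 / 10000000000 : ℤ) : ℝ) ≤ (R.om : ℝ) * X0 / 10000000000 := by
    have : R.om * X0 / 10000000000 * 10000000000 ≤ R.om * X0 :=
      Int.ediv_mul_le _ (by norm_num)
    rw [le_div_iff₀ (by norm_num)]
    exact_mod_cast this
  have f1 : (R.om : ℝ) * X ≤ (R.om : ℝ) * X1 / 10000000000 := by
    rw [le_div_iff₀ (by norm_num)]
    have := mul_le_mul_of_nonneg_left hX1 ho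
    linarith
  have f0 : (R.om : ℝ) * X0 / 10000000000 ≤ (R.om : ℝ) * X := by
    rw [div_le_iff₀ (by norm_num)]
    have := mul_le_mul_of_nonneg_left hX0 ho
    linarith
  have g1 : 10000000000 * ζ ≤ ((min z1 (R.om * X1 / 10000000000 + 1 + R.bh) : ℤ) : ℝ) := by
    rw [Int.cast_min, le_min_iff]
    refine ⟨hz1, ?_⟩
    push_cast
    linarith
  have g0 : ((max z0 (R.om * X0 / 10000000000 - R.bl) : ℤ) : ℝ) ≤ 10000000000 * ζ := by
    rw [Int.cast_max, max_le_iff]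
    refine ⟨hz0, ?_⟩
    push_cast
    linarith
  have : ((max z0 (R.om * X0 / 10000000000 - R.bl) : ℤ) : ℝ)
      ≤ ((min z1 (R.om * X1 / 10000000000 + 1 + R.bh) : ℤ) : ℝ) := g0.trans g1
  exact absurd h (not_lt.mpr (by exact_mod_cast this))

theorem tree (hL : LeafStmt) : TreeStmt := by
  intro md ch C K R x0 T
  induction T with
  | lf s n =>
    intro X0 X1 Y0 Y1 z0 z1 hch hom _ hrun z Cr Kr hz hC hK hmd X Y ζ a1 a2 a3 a4 a5 a6 a7 a8 _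
    exact hL md ch C K R s n X0 X1 Y0 Y1 z0 z1 hch hom hrun z Cr Kr hz hC hK hmd X Y ζ
      a1 a2 a3 a4 a5 a6 a7 a8
  | ou =>
    intro X0 X1 Y0 Y1 z0 z1 hch hom _ hrun z Cr Kr hz hC hK hmd X Y ζ a1 a2 a3 a4 a5 a6 a7 a8 a9
    have hrun' : ouC ch R x0 X0 X1 Y0 Y1 z0 z1 = true := hrun
    interval_cases ch
    · exact absurd (show false = true from hrun') (by decide)
    · exact (ou1 x0 X0 X1 Y0 Y1 hrun' X Y a1 a2 a3 a4 (a9 rfl)).elim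
    · have e : chR 2 X * chA 2 X Y = X := by
        show (1 : ℝ) * X = X
        ring
      rw [e] at a7 a8
      exact (ou2 R hom X0 X1 z0 z1 hrun' X ζ a1 a2 a5 a6 a7 a8).elim
  | sx p l r ihl ihr =>
    intro X0 X1 Y0 Y1 z0 z1 hch hom hx0 hrun z Cr Kr hz hC hK hmd X Y ζ a1 a2 a3 a4 a5 a6 a7 a8 a9
    have hrun' : (Tr.run md ch C K R x0 l X0 p Y0 Y1 z0 z1
      && Tr.run md ch C K R x0 r p X1 Y0 Y1 z0 z1) = true := hrun
    rw [Bool.and_eq_true] at hrun'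
    rcases le_total (10000000000 * X) (p : ℝ) with h | h
    · exact ihl X0 p Y0 Y1 z0 z1 hch hom hx0 hrun'.1 z Cr Kr hz hC hK hmd X Y ζ
        a1 h a3 a4 a5 a6 a7 a8 a9
    · exact ihr p X1 Y0 Y1 z0 z1 hch hom hx0 hrun'.2 z Cr Kr hz hC hK hmd X Y ζ
        h a2 a3 a4 a5 a6 a7 a8 a9
  | sy p l r ihl ihr =>
    intro X0 X1 Y0 Y1 z0 z1 hch hom hx0 hrun z Cr Kr hz hC hK hmd X Y ζ a1 a2 a3 a4 a5 a6 a7 a8 a9
    have hrun' : (Tr.run md ch C K R x0 l X0 X1 Y0 p z0 z1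
      && Tr.run md ch C K R x0 r X0 X1 p Y1 z0 z1) = true := hrun
    rw [Bool.and_eq_true] at hrun'
    rcases le_total (10000000000 * Y) (p : ℝ) with h | h
    · exact ihl X0 X1 Y0 p z0 z1 hch hom hx0 hrun'.1 z Cr Kr hz hC hK hmd X Y ζ
        a1 a2 a3 h a5 a6 a7 a8 a9
    · exact ihr X0 X1 p Y1 z0 z1 hch hom hx0 hrun'.2 z Cr Kr hz hC hK hmd X Y ζ
        a1 a2 h a4 a5 a6 a7 a8 a9
  | sz p l r ihl ihr =>
    intro X0 X1 Y0 Y1 z0 z1 hch hom hx0 hrun z Cr Kr hz hC hK hmd X Y ζ a1 a2 a3 a4 a5 a6 a7 a8 a9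
    have hrun' : (Tr.run md ch C K R x0 l X0 X1 Y0 Y1 z0 p
      && Tr.run md ch C K R x0 r X0 X1 Y0 Y1 p z1) = true := hrun
    rw [Bool.and_eq_true] at hrun'
    rcases le_total (10000000000 * ζ) (p : ℝ) with h | h
    · exact ihl X0 X1 Y0 Y1 z0 p hch hom hx0 hrun'.1 z Cr Kr hz hC hK hmd X Y ζ
        a1 a2 a3 a4 a5 h a7 a8 a9
    · exact ihr X0 X1 Y0 Y1 p z1 hch hom hx0 hrun'.2 z Cr Kr hz hC hK hmd X Y ζ
        a1 a2 a3 a4 h a6 a7 a8 a9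

end Pool.Agent.Helper49.DL
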