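import Pool.Agent.Helper30.DL.GoalsB

/-!
MP_b4564f_an, packet WND: the window.
-/

set_option autoImplicit false

open Complex (I)
open Finset

namespace Pool.Agent.Helper49.DL

open Pool.Agent.Helper30.DL

/-- the functional `q^k w_k + ∑ q^j (w_j - w_{j+1})` -/
noncomputable def Fq (k : ℕ) (q : ℂ) (w : ℕ → ℝ) : ℂ :=
  q ^ k * (w k : ℂ) + ∑ j ∈ range k, q ^ j * ((w j - w (j + 1) : ℝ) : ℂ)

theorem Fq_nx (k : ℕ) (hk : 1 ≤ k) (p G : ℝ) (q : ℂ) (w : ℕ → ℝ) :
    Fq k q (nx k p G w) = q * Fq k q w - (q ^ (k + 1) - q ^ k + p) * (w k : ℂ) - G := by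
  obtain ⟨m, rfl⟩ : ∃ m, k = m + 1 := ⟨k - 1, by omega⟩
  unfold Fq
  rw [Finset.sum_range_succ', Finset.sum_range_succ]
  simp only [nx]
  have h1 : q * (q ^ (m + 1) * (w (m + 1) : ℂ)
      + (∑ x ∈ range m, q ^ x * ((w x - w (x + 1) : ℝ) : ℂ)
        + q ^ m * ((w m - w (m + 1) : ℝ) : ℂ)))
      = q ^ (m + 2) * (w (m + 1) : ℂ) + ∑ x ∈ range m, q ^ (x + 1) * ((w x - w (x + 1) : ℝ) : ℂ)
        + q ^ (m + 1) * ((w m - w (m + 1) : ℝ) : ℂ) := by
    rw [mul_add, mul_add, Finset.mul_sum]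
    have : ∑ x ∈ range m, q * (q ^ x * ((w x - w (x + 1) : ℝ) : ℂ))
        = ∑ x ∈ range m, q ^ (x + 1) * ((w x - w (x + 1) : ℝ) : ℂ) :=
      Finset.sum_congr rfl fun x _ => by ring
    rw [this]
    ring
  rw [h1]
  push_cast
  ring

theorem Fq_sub (k : ℕ) (q : ℂ) (w v : ℕ → ℝ) :
    Fq k q (fun j => w j - v j) = Fq k q w - Fq k q v := by
  unfold Fq
  have : ∑ j ∈ range k, q ^ j * ((w j - v j - (w (j + 1) - v (j + 1)) : ℝ) : ℂ)
      = ∑ j ∈ range k, q ^ j * ((w j - w (j + 1) : ℝ) : ℂ)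
        - ∑ j ∈ range k, q ^ j * ((v j - v (j + 1) : ℝ) : ℂ) := by
    rw [← Finset.sum_sub_distrib]
    refine Finset.sum_congr rfl fun j _ => ?_
    push_cast
    ring
  simp only [this]
  push_cast
  ring

theorem re_cx (z : ℂ) : ((z.re : ℝ) : ℂ) = (z + cj z) / 2 := by
  unfold cj
  rw [Complex.add_conj]
  push_cast
  ring

/-- the difference of two consecutive powers -/
theorem pow_diff (k : ℕ) (L K : ℂ) (p : ℝ) (hLk : L ^ k = K) (hL1 : L - 1 = -(p * cj K))
    (hLL : L * cj L = 1) (hKK : K * cj K = 1) (j : ℕ) (hj : j + 1 ≤ k) :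
    L ^ (k - j) - L ^ (k - (j + 1)) = -(p * cj L ^ (j + 1)) := by
  have e1 : k - j = (k - (j + 1)) + 1 := by omega
  have e2 : L ^ (k - (j + 1)) * L ^ (j + 1) = K := by
    rw [← pow_add, ← hLk]
    congr 1
    omega
  have e3 : L ^ (j + 1) * cj L ^ (j + 1) = 1 := by
    rw [← mul_pow, hLL, one_pow]
  have e4 : L ^ (k - (j + 1)) = K * cj L ^ (j + 1) := by
    rw [← e2, mul_assoc, e3, mul_one]
  rw [e1, pow_succ]
  have : L ^ (k - (j + 1)) * L - L ^ (k - (j + 1)) = L ^ (k - (j + 1)) * (L - 1) := by ring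
  rw [this, hL1, e4]
  linear_combination (-(p * cj L ^ (j + 1) : ℂ)) * hKK

theorem Fq_res (k : ℕ) (L K q X : ℂ) (p : ℝ) (hLk : L ^ k = K) (hL1 : L - 1 = -(p * cj K))
    (hLL : L * cj L = 1) (hKK : K * cj K = 1) :
    Fq k q (fun j => (X * L ^ (k - j)).re)
      = X * (q ^ k / 2 - p / 2 * ∑ j ∈ range k, q ^ j * cj L ^ (j + 1))
        + cj X * (q ^ k / 2 - p / 2 * ∑ j ∈ range k, q ^ j * L ^ (j + 1)) := by
  unfold Fq
  have h1 : ∀ j ∈ range k, q ^ j * (((X * L ^ (k - j)).re - (X * L ^ (k - (j + 1))).re : ℝ) : ℂ)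
      = X * (-(p / 2 * (q ^ j * cj L ^ (j + 1)))) + cj X * (-(p / 2 * (q ^ j * L ^ (j + 1)))) := by
    intro j hj
    have hj' : j + 1 ≤ k := Nat.succ_le_of_lt (Finset.mem_range.mp hj)
    have e : (X * L ^ (k - j)).re - (X * L ^ (k - (j + 1))).re
        = (X * (-(p * cj L ^ (j + 1)))).re := by
      rw [← pow_diff k L K p hLk hL1 hLL hKK j hj', mul_sub, Complex.sub_re]
    rw [e, re_cx]
    have e2 : cj (X * (-((p : ℂ) * cj L ^ (j + 1)))) = cj X * (-((p : ℂ) * L ^ (j + 1))) := by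
      unfold cj
      simp only [map_mul, map_neg, map_pow, Complex.conj_conj, Complex.conj_ofReal]
    rw [e2]
    ring
  rw [Finset.sum_congr rfl h1, Finset.sum_add_distrib, ← Finset.mul_sum, ← Finset.mul_sum,
    Finset.sum_neg_distrib, Finset.sum_neg_distrib, ← Finset.mul_sum, ← Finset.mul_sum]
  have e3 : ((X * L ^ (k - k)).re : ℂ) = (X + cj X) / 2 := by
    rw [Nat.sub_self, pow_zero, mul_one, re_cx]
  simp only [e3]
  ring

theorem geo (k : ℕ) (z : ℂ) : (∑ j ∈ range k, z ^ j) * (1 - z) = 1 - z ^ k := by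
  have := geom_sum_mul z k
  linear_combination -this

theorem wnd (hc : CstStmt) : WndStmt := by
  intro k hk t ht G w
  obtain ⟨-, -, -, -, -, -, hLk, hLk1, hL1, hLL, hex2, hmu, -, hKK, hki, -, -, hkK, hsum, hmuk,
    hchi, -, -, hDm, hex, -⟩ := hc k hk t ht
  set L := lam t with hLdef
  set K := lk t with hKdef
  set p := pp t with hpdef
  set κ := kap t with hκdef
  have hZF : ∀ v : ℕ → ℝ, Zf k t v = Fq k L v := fun v => rfl
  have hWF : ∀ v : ℕ → ℝ, Wf k t v = Fq k (mu t) v := fun v => rfl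
  have h1 : Zf k t (nx k p G w) = L * Zf k t w - G := by
    rw [hZF, hZF, Fq_nx k (by omega) p G L w, hLk1, hLk]
    ring
  have hX' : Xf k t (nx k p G w) = L * Xf k t w - G * κ := by
    unfold Xf
    rw [h1]
    ring
  have h3 : ∀ i < k, zt k t (nx k p G w) (i + 1) = zt k t w i + G * (κ * L ^ (k - 1 - i)).re := by
    intro i hi
    unfold zt
    rw [hX']
    have e1 : k - i = (k - 1 - i) + 1 := by omega
    have e2 : k - (i + 1) = k - 1 - i := by omega
    have e3 : (L * Xf k t w - G * κ) * L ^ (k - 1 - i)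
        = Xf k t w * L ^ ((k - 1 - i) + 1) - (G : ℂ) * (κ * L ^ (k - 1 - i)) := by ring
    rw [← hLdef, e2, e1, e3, Complex.sub_re, Complex.re_ofReal_mul]
    simp only [nx]
    ring
  have hzk : zt k t w k = w k - (Xf k t w).re := by
    unfold zt
    rw [Nat.sub_self, pow_zero, mul_one]
  have hz0 : zt k t w 0 = w 0 - (Xf k t w * K).re := by
    unfold zt
    rw [Nat.sub_zero, ← hLdef, hLk]
  have h4 : dt k t (nx k p G w) 0 = -(p * zt k t w k) - G * k0 t := by
    unfold dt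
    rw [hzk]
    have e1 : zt k t (nx k p G w) 0 = w 0 - p * w k - G
        - ((L * Xf k t w - G * κ) * L ^ (k - 0)).re := by
      unfold zt
      rw [hX']
      simp only [nx]
      rfl
    have e2 : zt k t (nx k p G w) (0 + 1) = w 0
        - ((L * Xf k t w - G * κ) * L ^ (k - (0 + 1))).re := by
      unfold zt
      rw [hX']
      simp only [nx]
      rfl
    rw [e1, e2]
    have e3 := pow_diff k L K p hLk hL1 hLL hKK 0 (by omega)
    have e4 : ((L * Xf k t w - G * κ) * L ^ (k - 0)).re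
        - ((L * Xf k t w - G * κ) * L ^ (k - (0 + 1))).re
        = -(p * (Xf k t w).re) + G * p * (kl t).re := by
      rw [← Complex.sub_re, ← mul_sub, e3]
      have e5 : (L * Xf k t w - G * κ) * (-((p : ℂ) * cj L ^ (0 + 1)))
          = ((-p : ℝ) : ℂ) * Xf k t w + ((G * p : ℝ) : ℂ) * kl t := by
        unfold kl
        rw [hex2, ← hκdef]
        push_cast
        linear_combination (-(p * Xf k t w : ℂ)) * hLL
      rw [e5, Complex.add_re, Complex.re_ofReal_mul, Complex.re_ofReal_mul]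
      ring
    unfold k0
    rw [← hpdef]
    linear_combination -e4
  have h5 : ∀ i, i + 1 < k → dt k t (nx k p G w) (i + 1)
        = dt k t w i - p * G * (κ * cj L ^ (i + 2)).re := by
    intro i hi
    unfold dt
    rw [h3 i (by omega), h3 (i + 1) hi]
    have e1 : k - 1 - i = k - (i + 1) := by omega
    have e2 : k - 1 - (i + 1) = k - (i + 1 + 1) := by omega
    rw [e1, e2]
    have e3 := pow_diff k L K p hLk hL1 hLL hKK (i + 1) (by omega)
    have e4 : (κ * L ^ (k - (i + 1))).re - (κ * L ^ (k - (i + 1 + 1))).re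
        = -(p * (κ * cj L ^ (i + 2)).re) := by
      rw [← Complex.sub_re, ← mul_sub, e3]
      have e5 : κ * (-((p : ℂ) * cj L ^ (i + 1 + 1))) = ((-p : ℝ) : ℂ) * (κ * cj L ^ (i + 2)) := by
        push_cast
        ring
      rw [e5, Complex.re_ofReal_mul]
      ring
    linear_combination G * e4
  have hFz : ∀ q : ℂ, q ^ k * (zt k t w k : ℂ) + ∑ j ∈ range k, q ^ j * (dt k t w j : ℂ)
      = Fq k q w - Fq k q (fun j => (Xf k t w * L ^ (k - j)).re) := by
    intro q
    rw [← Fq_sub]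
    rfl
  have hκ0 : κ ≠ 0 := by
    intro h
    rw [h, zero_mul] at hki
    exact zero_ne_one hki
  have hL0 : L ≠ 0 := by
    intro h
    rw [h, zero_mul] at hLL
    exact zero_ne_one hLL
  have hLpow : ∀ n : ℕ, L ^ n * cj L ^ n = 1 := by
    intro n
    rw [← mul_pow, hLL, one_pow]
  have h6 : L ^ k * (zt k t w k : ℂ) + ∑ j ∈ range k, L ^ j * (dt k t w j : ℂ) = 0 := by
    rw [hFz, Fq_res k L K L (Xf k t w) p hLk hL1 hLL hKK]
    have e1 : ∑ j ∈ range k, L ^ j * cj L ^ (j + 1) = (k : ℂ) * cj L := by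
      have : ∀ j ∈ range k, L ^ j * cj L ^ (j + 1) = cj L := by
        intro j _
        rw [pow_succ, ← mul_assoc, hLpow, one_mul]
      rw [Finset.sum_congr rfl this, Finset.sum_const, Finset.card_range, nsmul_eq_mul]
    have e2 : ∑ j ∈ range k, L ^ j * L ^ (j + 1) = ∑ j ∈ range k, L ^ (2 * j + 1) := by
      refine Finset.sum_congr rfl fun j _ => ?_
      rw [← pow_add]
      congr 1
      ring
    rw [e1, e2, hLk, ← hZF]
    have e3 : Xf k t w = κ * Zf k t w := rfl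
    rw [e3]
    push_cast at hkK
    linear_combination (-(Zf k t w / 2 : ℂ)) * hkK + (cj (κ * Zf k t w) / 2) * hsum
  have hcKK : cj K * cj K = -L := by
    have e1 : mu t ^ k = cj K * cj K := by
      rw [hmu, ← pow_mul, mul_comm 2 k, pow_mul]
      have : cj L ^ k = cj K := by
        rw [← hLk]
        unfold cj
        rw [map_pow]
      rw [this]
      ring
    rw [← e1, hmuk]
    rfl
  have hcLk : cj L ^ k = cj K := by
    rw [← hLk]
    unfold cj
    rw [map_pow]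
  have hmk : mu t ^ k = -L := hmuk
  have hmk1 : mu t ^ (k + 1) = -cj L := by
    rw [pow_succ, hmk, hmu]
    linear_combination (-(cj L : ℂ)) * hLL
  have hex4 : ex t 4 = L ^ 2 := by
    have := hex 2
    rw [show (2 * 2 : ℤ) = 4 by norm_num] at this
    rw [this]
    norm_cast
  obtain ⟨hD1, -, hn1⟩ := hDm 1 (le_refl _) (by norm_num)
  obtain ⟨hD3, -, hn3⟩ := hDm 3 (by norm_num) (by norm_num)
  have hw1 : mu t ^ k / 2 - p / 2 * ∑ j ∈ range k, mu t ^ j * cj L ^ (j + 1) = w1 t := by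
    apply mul_right_cancel₀ hn3
    have e1 : ∑ j ∈ range k, mu t ^ j * cj L ^ (j + 1) = cj L * ∑ j ∈ range k, (cj L ^ 3) ^ j := by
      rw [Finset.mul_sum]
      refine Finset.sum_congr rfl fun j _ => ?_
      rw [hmu]
      ring
    have e2 := geo k (cj L ^ 3)
    have e3 : (cj L ^ 3) ^ k = cj K ^ 3 := by
      rw [← pow_mul, mul_comm 3 k, pow_mul, hcLk]
    rw [e3] at e2
    have e4 : (∑ j ∈ range k, (cj L ^ 3) ^ j) * (1 - L ^ 3) = -(L ^ 3 * (1 - cj K ^ 3)) := by
      rw [← e2]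
      linear_combination (-(∑ j ∈ range k, (cj L ^ 3) ^ j)) * (hLpow 3)
    have e5 : w1 t * (1 - L ^ 3) = 1 / 2 * L ^ 2 * (p - cj L + L) := by
      unfold w1
      rw [hex4]
      rw [hmk1, hmk] at hchi
      push_cast
      linear_combination (1 / 2 * chh t * L ^ 2) * hD3 + (1 / 2 * L ^ 2) * hchi
    rw [e5, e1, hmk]
    linear_combination (-(p / 2 * cj L : ℂ)) * e4
      + ((p : ℂ) / 2 * (1 - cj K ^ 3) * L ^ 2 + L / 2) * hLL + (L ^ 3 / 2) * hL1
      + (-(p / 2 * L ^ 2 * cj K : ℂ)) * hcKK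
  have hw2 : mu t ^ k / 2 - p / 2 * ∑ j ∈ range k, mu t ^ j * L ^ (j + 1) = w2 t := by
    apply mul_right_cancel₀ hn1
    have e1 : ∑ j ∈ range k, mu t ^ j * L ^ (j + 1) = L * ∑ j ∈ range k, cj L ^ j := by
      rw [Finset.mul_sum]
      refine Finset.sum_congr rfl fun j _ => ?_
      rw [hmu]
      linear_combination (L * cj L ^ j) * (hLpow j)
    have e2 := geo k (cj L)
    rw [hcLk] at e2
    have e4 : (∑ j ∈ range k, cj L ^ j) * (1 - L ^ 1) = -(L * (1 - cj K)) := by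
      rw [← e2]
      linear_combination (-(∑ j ∈ range k, cj L ^ j)) * hLL
    have e5 : w2 t * (1 - L ^ 1) = 1 / 2 * L ^ 2 * (p - cj L + L) := by
      unfold w2
      rw [hex4]
      rw [hmk1, hmk] at hchi
      push_cast
      linear_combination (1 / 2 * chh t * L ^ 2) * hD1 + (1 / 2 * L ^ 2) * hchi
    rw [e5, e1, hmk]
    linear_combination (-(p / 2 * L : ℂ)) * e4 + (L / 2) * hLL + (-(L ^ 2 / 2)) * hL1
  have h7 : Wf k t w = w1 t * Xf k t w + w2 t * cj (Xf k t w) + muk t * (zt k t w k : ℂ)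
        + ∑ j ∈ range k, mu t ^ j * (dt k t w j : ℂ) := by
    have e1 := hFz (mu t)
    rw [Fq_res k L K (mu t) (Xf k t w) p hLk hL1 hLL hKK, hw1, hw2, ← hWF, hmuk] at e1
    linear_combination -e1
  refine ⟨h1, ?_, h3, h4, h5, h6, h7, ?_, ?_, ?_, ?_⟩
  · rw [hWF, hWF, Fq_nx k (by omega) p G (mu t) w, hchi]
    ring
  · rw [hz0, mul_comm]
    ring
  · unfold dt
    rw [Finset.sum_range_sub']
    ring
  · rw [hzk]
    ring
  · unfold Xf
    rw [← mul_assoc, mul_comm (ik t), ← hκdef, hki, one_mul]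

end Pool.Agent.Helper49.DL
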